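import Pool.Agent.Lib.MP_021f05_al.Final
import Pool.Agent.Lib.MP_021f05_al.RootC

/-!
# MP_021f05_al: the cohomology ring of `U_ε(𝔤)` for `ε` not a root of unity

Let `P` be a finite reduced crystallographic root system with base `b`,
`a_{ij} = ⟨α_j, α_i^∨⟩` its Cartan matrix, `d_i` positive integers with `d_i a_{ij}` symmetric, `k` a
field of characteristic zero and `ε ∈ k` nonzero and not a root of unity.  Then the Yoneda algebra
`⨁ Ext^n(k, k)` of the trivial module of `U_ε` is an exterior algebra on generators of degrees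
`2 m_j + 1`, where the `m_j` are the exponents of the Weyl group.
-/

noncomputable section

namespace Pool.Agent.Results.MP_021f05_al.ExteriorAlgebraTheorem

open Pool.Agent.Lib.QG.Stmt CategoryTheory DirectSum

universe w v u

/-- The Yoneda algebra `⨁ Ext^n(X, X)` is an exterior algebra on `r` generators, the `j`-th one of
degree `2 m_j + 1`: there is an isomorphism of `k`-algebras from the exterior algebra of `k^r`
which maps the `j`-th basis vector into `Ext^{2 m_j + 1}(X, X)`. -/
def ExteriorYoneda (k : Type) [Field k] {C : Type u} [Category.{v} C] [Abelian C] [Linear k C]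
    [HasExt.{w} C] (X : C) {r : ℕ} (m : Fin r → ℕ) : Prop :=
  ∃ ψ : ExteriorAlgebra k (Fin r → k) ≃ₐ[k] (⨁ n, Y X n), ∀ j, ∃ y : Y X (2 * m j + 1),
    ψ (ExteriorAlgebra.ι k (Pi.single j 1)) = DirectSum.of (Y X) (2 * m j + 1) y

/-- The same for a module `X` over a `k`-algebra `A`. -/
def ExteriorExt (k : Type) [Field k] {A : Type} [Ring A] [Algebra k A] (X : ModuleCat.{0} A)
    {r : ℕ} (m : Fin r → ℕ) : Prop := ExteriorYoneda k X m

/-- The Yoneda algebra of the trivial module of `U_ε` is an exterior algebra on generators of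
degrees `2 m_j + 1`. -/
def ExteriorCohomology {k : Type} [Field k] {I : Type} (a : I → I → ℤ) (d : I → ℕ) (ε : k)
    {r : ℕ} (m : Fin r → ℕ) : Prop := ExteriorExt k (trivMod a d ε) m

theorem result (k : Type) [Field k] [CharZero k] (ι R M N : Type) [Finite ι]
    [Field R] [CharZero R] [AddCommGroup M] [Module R M] [AddCommGroup N] [Module R N]
    (P : RootPairing ι R M N) [P.IsRootSystem] [P.IsCrystallographic] [P.IsReduced]
    (b : P.Base) (d : b.support → ℕ) (hd : ∀ i, 0 < d i)
    (hs : ∀ i j, (d i : ℤ) * b.cartanMatrix j i = d j * b.cartanMatrix i j)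
    (ε : k) (h0 : ε ≠ 0) (hε : ∀ n : ℕ, 0 < n → ε ^ n ≠ 1) :
    (∃ m : Fin (Fintype.card b.support) → ℕ,
      IsExponents k (fun i j => b.cartanMatrix j i) m) ∧
    ∀ (r : ℕ) (m : Fin r → ℕ), IsExponents k (fun i j => b.cartanMatrix j i) m →
      ExteriorCohomology (fun i j => b.cartanMatrix j i) d ε m := by
  classical
  obtain ⟨C, hCa, hCd⟩ := Pool.Agent.Lib.QG.exists_CDatum P b d hd hs
  have h := Pool.Agent.Lib.QG.main_datum (k := k) C ε h0 hε
  rw [hCa, hCd] at h
  exact h

end Pool.Agent.Results.MP_021f05_al.ExteriorAlgebraTheorem
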